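import Pool.Agent.Lib.MP_78205c_lc.Mj.Est

/-!
Approximate average-case trace reconstruction under insertions and deletions from a given number
`M` of traces: edit distance `(C M^4 p)^h log(1/p)^(h-1) n + C M^3 log(n+1)` with `h = ⌈M/2⌉`.
-/

namespace Pool.Agent.Results.MP_78205c_lc.MajorityExponent

open Pool.Agent.Lib.MP_78205c_lc Pool.Agent.Lib.MP_78205c_lc.Mj

theorem result : ∃ C : ℝ, 0 < C ∧ ∀ (M : ℕ) (p : ℝ), 1 ≤ M → 0 < p → p ≤ 1 / 2 →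
    C * M ^ 4 * p * Real.log (1 / p) ≤ 1 → ∀ n : ℕ, 1 ≤ n →
      ∃ A : (Fin M → List Bool) → List Bool, 1 - (n : ℝ)⁻¹ ≤ success p n M A
        ((C * M ^ 4 * p) ^ ((M + 1) / 2) * Real.log (1 / p) ^ ((M - 1) / 2) * n +
          C * M ^ 3 * Real.log (n + 1)) := by
  refine ⟨30000, by norm_num, fun M p hM hp hp' hs n hn => ?_⟩
  obtain ⟨g, hg⟩ : ∃ g, g = (M - 1) / 2 := ⟨_, rfl⟩
  rw [show (M + 1) / 2 = g + 1 by omega, ← hg]
  obtain ⟨l, hl⟩ : ∃ l, l = Real.log (1 / p) := ⟨_, rfl⟩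
  obtain ⟨y, hy⟩ : ∃ y, y = Real.log (n + 1) := ⟨_, rfl⟩
  have l2 := Real.log_two_gt_d9
  have M1 : (1 : ℝ) ≤ M := by exact_mod_cast hM
  have n1 : (1 : ℝ) ≤ n := by exact_mod_cast hn
  have l0 : 0.69 ≤ l := by
    have : Real.log 2 ≤ Real.log (1 / p) :=
      Real.log_le_log two_pos (by rw [le_div_iff₀ hp]; linarith)
    linarith
  have y0 : 0.69 ≤ y := by
    have : Real.log 2 ≤ Real.log (n + 1) := Real.log_le_log two_pos (by linarith)
    linarith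
  have y1 : Real.log (4 * n) ≤ 2 * y := by
    have : Real.log (4 * n) ≤ Real.log ((n + 1) ^ 2) :=
      Real.log_le_log (by positivity) (by nlinarith [sq_nonneg ((n : ℝ) - 1)])
    rwa [Real.log_pow, Nat.cast_ofNat, ← hy] at this
  have y2 : Real.log (2 * n) ≤ 2 * y :=
    (Real.log_le_log (by positivity) (by linarith)).trans y1
  have pl : p * Real.exp l = 1 := by rw [hl, Real.exp_log (by positivity)]; field_simp
  rw [← hl] at hs ⊢
  rw [← hy]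
  obtain ⟨h, hh⟩ : ∃ h, h = g + 1 := ⟨_, rfl⟩
  have h1 : (1 : ℝ) ≤ h := by exact_mod_cast (show 1 ≤ h by omega)
  have h2 : (h : ℝ) ≤ M := by exact_mod_cast (show h ≤ M by omega)
  obtain ⟨k, hk⟩ : ∃ k, k = ⌈3 * h * l⌉₊ + 2 := ⟨_, rfl⟩
  have k1 : (k : ℝ) ≤ 8 * M * l := by
    have := Nat.ceil_lt_add_one (show 0 ≤ 3 * h * l by positivity)
    rw [hk]
    push_cast
    nlinarith
  have k2 : 3 ≤ (p ^ h) ^ 2 * 2 ^ k := by
    have a1 : Real.exp (2 / 3) ≤ 2 :=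
      (Real.exp_le_exp.2 (show 2 / 3 ≤ Real.log 2 by linarith)).trans (Real.exp_log two_pos).le
    have a2 : Real.exp (2 * h * l) ≤ 2 ^ ⌈3 * h * l⌉₊ := by
      calc _ ≤ Real.exp (⌈3 * h * l⌉₊ * (2 / 3)) :=
            Real.exp_le_exp.2 (by linarith [Nat.le_ceil (3 * h * l)])
        _ ≤ _ := by rw [Real.exp_nat_mul]; gcongr
    have a3 : (p ^ h) ^ 2 * Real.exp (2 * h * l) = 1 := by
      rw [show 2 * h * l = ((h * 2 : ℕ) : ℝ) * l by push_cast; ring, Real.exp_nat_mul, ← pow_mul,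
        ← mul_pow, pl, one_pow]
    rw [hk, pow_add]
    nlinarith [mul_le_mul_of_nonneg_left a2 (show 0 ≤ (p ^ h) ^ 2 by positivity)]
  obtain ⟨V, hV⟩ : ∃ V, V = 2 * (3 * ((h + 3 * M * h) * k)) := ⟨_, rfl⟩
  have V0 : 0 < V := by
    have : 0 < (h + 3 * M * h) * k := Nat.mul_pos (by omega) (by omega)
    omega
  have V1 : (1 : ℝ) ≤ V := by exact_mod_cast V0
  have V2 : (V : ℝ) ≤ 192 * M ^ 3 * l := by
    have a1 : (h + 3 * M * h : ℝ) ≤ 4 * M ^ 2 := by nlinarith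
    calc (V : ℝ) = 6 * ((h + 3 * M * h) * k) := by rw [hV]; push_cast; ring
      _ ≤ 6 * (4 * M ^ 2 * (8 * M * l)) := by gcongr
      _ = _ := by ring
  obtain ⟨u, hu⟩ : ∃ u, u = 60 * p * M * V := ⟨_, rfl⟩
  have u1 : u ≤ 30000 * M ^ 4 * p * l := by
    calc u ≤ 60 * p * M * (192 * M ^ 3 * l) := by rw [hu]; gcongr
      _ = 11520 * (M ^ 4 * p * l) := by ring
      _ ≤ 30000 * (M ^ 4 * p * l) := by gcongr; norm_num
      _ = _ := by ring
  have u2 : p ≤ 60 * p * M := by nlinarith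
  have u3 : p ≤ u := by rw [hu]; exact u2.trans (le_mul_of_one_le_right (by positivity) V1)
  have u0 : 0 < u := hp.trans_le u3
  obtain ⟨Q, hQ⟩ : ∃ Q, Q = 60 * p * M * u ^ g * n := ⟨_, rfl⟩
  have Q1 : ((n / V + 1 : ℕ) : ℝ) * u ^ h ≤ Q + 1 := by
    have a1 : ((n / V : ℕ) : ℝ) * V ≤ n := by exact_mod_cast Nat.div_mul_le_self n V
    have a2 : u ^ h ≤ 1 := pow_le_one₀ u0.le (u1.trans hs)
    have a3 : ((n / V : ℕ) : ℝ) * u ^ h ≤ Q := by
      calc _ = 60 * p * M * u ^ g * (((n / V : ℕ) : ℝ) * V) := by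
            rw [hh, pow_succ]; nth_rewrite 2 [hu]; ring
        _ ≤ _ := by rw [hQ]; gcongr
    rw [Nat.cast_add, Nat.cast_one, add_mul, one_mul]
    linarith
  have Q2 : n * p ^ h ≤ Q := by
    rw [hQ, hh, pow_succ', mul_comm]
    gcongr
  have Q0 : 0 ≤ Q := le_trans (by positivity) Q2
  have lg : ∀ c : ℝ, 1 ≤ c → 0 ≤ Real.log (c * n) := fun c hc => Real.log_nonneg (by nlinarith)
  obtain ⟨T, hT⟩ : ∃ T, T = ⌈2 * (((n / V + 1 : ℕ) : ℝ) * u ^ h + Real.log (4 * n))⌉₊ := ⟨_, rfl⟩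
  obtain ⟨t, ht⟩ : ∃ t, t = ⌈2 * n * p ^ h + Real.log (2 * n)⌉₊ := ⟨_, rfl⟩
  have T1 : (T : ℝ) ≤ 2 * Q + 3 + 4 * y := by
    have := Nat.ceil_lt_add_one (show 0 ≤ 2 * (((n / V + 1 : ℕ) : ℝ) * u ^ h + Real.log (4 * n)) by
      have := lg 4 (by norm_num); positivity)
    rw [hT]
    linarith
  have t1 : (t : ℝ) ≤ 2 * Q + 1 + 2 * y := by
    have := Nat.ceil_lt_add_one (show 0 ≤ 2 * n * p ^ h + Real.log (2 * n) by
      have := lg 2 (by norm_num); positivity)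
    rw [ht]
    linarith
  refine est (h := h) (k := k) (N := n / V + 1) (T := T) (t := t) (ρ := p ^ h) hp (by linarith) hM
    (by omega) (by omega) (by omega) rfl rfl ?_ ?_ (by positivity) k2 ?_ ?_
  · rw [← hV, ← hu]
    exact u1.trans hs
  · rw [← hV]
    exact ((Nat.div_lt_iff_lt_mul V0).1 (Nat.lt_succ_self _)).le
  · have T0 : (0 : ℝ) ≤ T := Nat.cast_nonneg _
    have t0 : (0 : ℝ) ≤ t := Nat.cast_nonneg _
    have m2 : (M : ℝ) ≤ M ^ 2 := by nlinarith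
    have m3 : (M : ℝ) ^ 2 ≤ M ^ 3 := pow_le_pow_right₀ M1 (by omega)
    have b1 : (M : ℝ) ^ 3 * (424 * Q) ≤ (30000 * M ^ 4 * p) ^ (g + 1) * l ^ g * n := by
      calc _ = 25440 * M ^ 4 * p * u ^ g * n := by rw [hQ]; ring
        _ ≤ 30000 * M ^ 4 * p * (30000 * M ^ 4 * p * l) ^ g * n := by gcongr; norm_num
        _ = _ := by rw [mul_pow _ l]; ring
    push_cast
    calc _ ≤ 2 * T + 6 * M * (2 * (4 * T + M * (5 * T) + 2 + M * (2 * t)) +
          (3 * (M + 3 * M * M) + 1) * T) + 9 * (M : ℝ) := by gcongr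
      _ = (2 + 54 * M + 78 * M ^ 2 + 54 * M ^ 3) * T + 24 * M ^ 2 * t + 33 * M := by ring
      _ ≤ (188 * M ^ 3) * T + 24 * M ^ 3 * t + 33 * M ^ 3 := by gcongr <;> linarith
      _ ≤ (188 * M ^ 3) * (2 * Q + 3 + 4 * y) + 24 * M ^ 3 * (2 * Q + 1 + 2 * y) + 33 * M ^ 3 := by
          gcongr
      _ = M ^ 3 * (424 * Q) + M ^ 3 * (621 + 800 * y) := by ring
      _ ≤ _ + M ^ 3 * (30000 * y) := add_le_add b1 (by gcongr; linarith)
      _ = _ := by ring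
  · rw [← hV, ← hu]
    have a1 : Real.exp (2 * n * p ^ h - t) ≤ (2 * n : ℝ)⁻¹ := by
      rw [← Real.exp_log (show (0 : ℝ) < (2 * n : ℝ)⁻¹ by positivity), Real.log_inv, ht]
      exact Real.exp_le_exp.2 (by linarith [Nat.le_ceil (2 * n * p ^ h + Real.log (2 * n))])
    have a2 : Real.exp (((n / V + 1 : ℕ) : ℝ) * u ^ h - T / 2) ≤ (4 * n : ℝ)⁻¹ := by
      rw [← Real.exp_log (show (0 : ℝ) < (4 * n : ℝ)⁻¹ by positivity), Real.log_inv, hT]
      exact Real.exp_le_exp.2 (by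
        linarith [Nat.le_ceil (2 * (((n / V + 1 : ℕ) : ℝ) * u ^ h + Real.log (4 * n)))])
    rw [mul_inv] at a1 a2
    linarith

end Pool.Agent.Results.MP_78205c_lc.MajorityExponent
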