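import Pool.Agent.Lib.MP_78205c_lc.Mj.Low

/-!
Approximate average-case trace reconstruction under insertions and deletions: no algorithm with
`M` traces reaches edit distance `(c p)^h n / log(1/p)`, `h = ⌈M/2⌉`, except with exponentially
small probability.
-/

namespace Pool.Agent.Results.MP_78205c_lc.MajorityLower

open Pool.Agent.Lib.MP_78205c_lc Pool.Agent.Lib.MP_78205c_lc.Mj

theorem result : ∃ c : ℝ, 0 < c ∧ ∀ (M : ℕ) (p : ℝ), 1 ≤ M → 0 < p → p ≤ 1 / 2 →
    ∀ (n : ℕ) (A : (Fin M → List Bool) → List Bool),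
      success p n M A ((c * p) ^ ((M + 1) / 2) * n / Real.log (1 / p)) ≤
        Real.exp (-((c * p) ^ ((M + 1) / 2) * n)) / (c * p) ^ (2 * ((M + 1) / 2)) := by
  refine ⟨1 / 4096 * (1 / 16384), by norm_num, fun M p hM hp hp' n A => ?_⟩
  obtain ⟨h, hh⟩ : ∃ h, h = (M + 1) / 2 := ⟨_, rfl⟩
  rw [← hh, mul_comm 2 h, pow_mul]
  obtain ⟨l, hl⟩ : ∃ l, l = Real.log (1 / p) := ⟨_, rfl⟩
  have l2 := Real.log_two_gt_d9
  have l1 : Real.log 2 ≤ l := by
    rw [hl]; exact Real.log_le_log two_pos (by rw [le_div_iff₀ hp]; linarith)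
  have l0 : 0 < l := by linarith
  have h0 : h ≠ 0 := by omega
  have n0 : (0 : ℝ) ≤ n := Nat.cast_nonneg _
  obtain ⟨μ, hμ⟩ : ∃ μ : ℝ, μ = (p / 16384) ^ h := ⟨_, rfl⟩
  have μ0 : 0 < μ := by rw [hμ]; positivity
  have μ1 : μ ≤ 1 := by rw [hμ]; exact pow_le_one₀ (by positivity) (by linarith)
  have μ2 : μ ≤ p ^ h / (4 * 64 ^ M) := by
    rw [hμ, div_pow]
    gcongr
    calc (4 * 64 ^ M : ℝ) ≤ 4 ^ h * 64 ^ (2 * h) :=
          mul_le_mul (le_self_pow₀ (by norm_num) h0) (pow_le_pow_right₀ (by norm_num) (by omega))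
            (by positivity) (by positivity)
      _ = _ := by rw [pow_mul, ← mul_pow]; norm_num
  obtain ⟨q, hq⟩ : ∃ q : ℝ, q = (1 / 4096 * (1 / 16384) * p) ^ h := ⟨_, rfl⟩
  rw [← hq, ← hl]
  have q0 : 0 < q := by rw [hq]; positivity
  have q1 : q * 4096 ^ h = μ := by rw [hq, hμ, ← mul_pow]; congr 1; ring
  have q2 : q * (2048 * h) ≤ μ := by
    rw [← q1, show (4096 : ℝ) = 2048 * 2 by norm_num, mul_pow]
    gcongr
    · exact le_self_pow₀ (by norm_num) h0
    · exact_mod_cast Nat.lt_two_pow_self.le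
  have h1 : (1 : ℝ) ≤ h := by exact_mod_cast Nat.pos_of_ne_zero h0
  have q3 : q * 2048 ≤ μ := le_trans (by nlinarith) q2
  obtain ⟨d, hd⟩ : ∃ d, d = ⌊q * n / l⌋₊ := ⟨_, rfl⟩
  have d1 : (d : ℝ) * l ≤ q * n := by
    rw [hd, ← le_div_iff₀ l0]; exact Nat.floor_le (by positivity)
  have d0 : (0 : ℝ) ≤ d := Nat.cast_nonneg _
  have d2 : 2 * (d : ℝ) ≤ n := by nlinarith
  refine (low hp hp' (h := h) (by omega) (by omega) n A (d := d) (y := 128 / μ)
    (hd ▸ Nat.lt_floor_add_one _) μ0 μ2 (by rw [le_div_iff₀ μ0]; linarith)).trans ?_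
  have a1 : Real.exp (n * (μ / 8)) ≤ (1 + μ / 4) ^ n := by
    rw [Real.exp_nat_mul]
    gcongr
    have b1 := Real.add_one_le_exp (-(μ / 8))
    have b2 : Real.exp (μ / 8) * Real.exp (-(μ / 8)) = 1 := by rw [← Real.exp_add]; simp
    have b3 := Real.exp_pos (μ / 8)
    nlinarith
  have a2 : (1 + 4 / (128 / μ)) ^ (n + 2 * d) ≤ Real.exp (n * (μ / 16)) := by
    calc _ ≤ Real.exp (μ / 32) ^ (n + 2 * d) := by
          gcongr
          rw [show 4 / (128 / μ) = μ / 32 by field_simp; norm_num, add_comm]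
          exact Real.add_one_le_exp _
      _ ≤ _ := by
          rw [← Real.exp_nat_mul]
          refine Real.exp_le_exp.2 ?_
          push_cast
          nlinarith
  have a3 : 128 / μ ≤ Real.exp (h * (22 * l)) := by
    have b1 : (2 : ℝ) ^ 21 ≤ Real.exp (21 * l) := by
      have : Real.exp ((21 : ℕ) * Real.log 2) ≤ Real.exp (21 * l) :=
        Real.exp_le_exp.2 (by push_cast; linarith)
      rwa [Real.exp_nat_mul, Real.exp_log two_pos] at this
    have b2 : Real.exp l = 1 / p := by rw [hl, Real.exp_log (by positivity)]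
    rw [Real.exp_nat_mul, show 22 * l = 21 * l + l by ring, Real.exp_add, b2, hμ]
    calc _ ≤ 128 ^ h / (p / 16384) ^ h := by gcongr; exact le_self_pow₀ (by norm_num) h0
      _ = (2 ^ 21 * (1 / p)) ^ h := by rw [← div_pow]; congr 1; field_simp; norm_num
      _ ≤ _ := by gcongr
  have a4 : (128 / μ) ^ (2 * d) ≤ Real.exp (n * (μ / 32)) := by
    calc _ ≤ Real.exp (h * (22 * l)) ^ (2 * d) := by gcongr
      _ ≤ _ := by
          rw [← Real.exp_nat_mul]
          refine Real.exp_le_exp.2 ?_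
          push_cast
          nlinarith [mul_le_mul_of_nonneg_left d1 (show (0 : ℝ) ≤ 44 * h by positivity),
            mul_le_mul_of_nonneg_left q2 n0, mul_nonneg n0 μ0.le]
  have a5 : 4 / μ * (128 / μ) ≤ 1 / q ^ 2 := by
    rw [div_mul_div_comm, div_le_div_iff₀ (by positivity) (by positivity)]
    nlinarith
  calc _ = 4 / μ * (128 / μ) * ((128 / μ) ^ (2 * d) * (1 + 4 / (128 / μ)) ^ (n + 2 * d)) /
        (1 + μ / 4) ^ n := by rw [pow_succ]; ring
    _ ≤ 1 / q ^ 2 * (Real.exp (n * (μ / 32)) * Real.exp (n * (μ / 16))) / Real.exp (n * (μ / 8)) := by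
        gcongr
    _ = Real.exp (n * (μ / 32) + n * (μ / 16) - n * (μ / 8)) / q ^ 2 := by
        rw [Real.exp_sub, Real.exp_add]; ring
    _ ≤ _ := by
        gcongr
        nlinarith

end Pool.Agent.Results.MP_78205c_lc.MajorityLower
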