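import Pool.Agent.Lib.MP_78205c_lc.Main

/-!
Approximate average-case trace reconstruction under insertions and deletions: polynomially many
traces in `1/ε` give edit distance `O(ε p n)` with probability at least `1 - 1/n`.
-/

namespace Pool.Agent.Results.MP_78205c_lc.PolyTraces

open Pool.Agent.Lib.MP_78205c_lc

theorem result : ∃ c₀ C k : ℝ, 0 < c₀ ∧ 0 < C ∧ 0 < k ∧
    ∀ p ε : ℝ, 0 < p → p ≤ c₀ → 0 < ε → ε < 1 → ∀ n : ℕ, 1 ≤ n →
      ∃ m : ℕ, (m : ℝ) ≤ C * ε ^ (-k) ∧ ∃ A : (Fin m → List Bool) → List Bool,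
        1 - (n : ℝ)⁻¹ ≤ success p n m A (C * ε * p * n) := by
  obtain ⟨c, hc⟩ : ∃ c : ℝ, c = 2 ^ 41 := ⟨_, rfl⟩
  have c1 : 10000000 ≤ c := by rw [hc]; norm_num
  have c2 : c ≤ c ^ 16 := le_self_pow₀ (by linarith) (by omega)
  have c3 : c ≤ c ^ 1290 := le_self_pow₀ (by linarith) (by omega)
  refine ⟨(c ^ 16)⁻¹, c ^ 1290, (1290 : ℕ), by positivity, by positivity, by positivity, ?_⟩
  intro p ε hp hp' he he' n hn
  have n0 : (0 : ℝ) ≤ n := by positivity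
  have p1 : p * c ^ 16 ≤ 1 := by rwa [← le_div_iff₀ (by positivity), one_div]
  have p2 : p ≤ 1 / 4000000 := by nlinarith
  have e1 : 1 ≤ ε⁻¹ := (one_le_inv₀ he).2 he'.le
  have key : ∀ a : ℝ, 1 ≤ a ^ 33 * (ε * p) → (n : ℝ) ≤ a ^ 33 * (c ^ 1290 * ε * p * n) := by
    intro a ha
    calc (n : ℝ) = 1 * 1 * n := by ring
      _ ≤ c ^ 1290 * (a ^ 33 * (ε * p)) * n := by gcongr; linarith
      _ = _ := by ring
  rw [Real.rpow_neg he.le, Real.rpow_natCast, ← inv_pow]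
  rcases le_total ε p with h | h
  · obtain ⟨j, j1, j2⟩ := exists_nat_pow_near e1 (one_lt_two (α := ℝ))
    have a1 : ε⁻¹ ≤ 2 ^ (j + 41) := j2.le.trans (pow_le_pow_right₀ one_le_two (by omega))
    refine ⟨(2 ^ (j + 41)) ^ 1290, ?_, regime1 hp.le p2 (by omega) hn (key _ ?_)⟩
    · rw [Nat.cast_pow, Nat.cast_pow, Nat.cast_ofNat, ← mul_pow, pow_add, ← hc, mul_comm]
      gcongr
    · generalize (2 : ℝ) ^ (j + 41) = a at *
      have a2 : 1 ≤ a * ε := by rwa [← div_le_iff₀ he, one_div]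
      have a3 : 1 ≤ a := e1.trans a1
      calc (1 : ℝ) ≤ (a * ε) ^ 2 := one_le_pow₀ a2
        _ = a ^ 2 * (ε * ε) := by ring
        _ ≤ _ := by gcongr; omega
  · obtain ⟨ν, j1, j2⟩ := exists_nat_pow_near (x := p⁻¹) (y := 2 ^ 16)
      ((one_le_inv₀ hp).2 (by linarith)) (by norm_num)
    have hν : 40 ≤ ν := by
      by_contra hn
      have h1 : ((2 : ℝ) ^ 16) ^ (ν + 1) ≤ (2 ^ 16) ^ 41 :=
        pow_le_pow_right₀ (by norm_num) (by omega)
      have h2 : c ^ 16 ≤ p⁻¹ := by rwa [← one_div, le_div_iff₀ hp, mul_comm]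
      rw [← pow_mul _ 16 41, mul_comm 16, pow_mul, ← hc] at h1
      exact absurd (j2.trans_le h1) (not_lt.2 h2)
    rw [← pow_mul, mul_comm, pow_mul] at j1
    rw [pow_succ, ← pow_mul, mul_comm 16, pow_mul] at j2
    have a0 : (2 : ℝ) ^ 32 ≤ 2 ^ ν := pow_le_pow_right₀ one_le_two (by omega)
    refine ⟨10000000, ?_, regime2 hp.le (by linarith) hν ?_ hn (key _ ?_) le_rfl⟩
    · have := le_mul_of_one_le_right (show 0 ≤ c ^ 1290 by positivity) (one_le_pow₀ e1 (n := 1290))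
      push_cast
      linarith
    · rwa [← one_div, le_div_iff₀ hp, mul_comm] at j1
    · generalize (2 : ℝ) ^ ν = a at *
      have a2 : 1 ≤ a ^ 16 * 2 ^ 16 * p := by
        rw [← div_le_iff₀ hp, one_div]; exact j2.le
      have a3 : 0 ≤ a := le_trans (by positivity) a0
      calc (1 : ℝ) ≤ (a ^ 16 * 2 ^ 16 * p) ^ 2 := one_le_pow₀ a2
        _ = a ^ 32 * 2 ^ 32 * (p * p) := by ring
        _ ≤ a ^ 32 * a * (ε * p) := by gcongr
        _ = _ := by ring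

end Pool.Agent.Results.MP_78205c_lc.PolyTraces
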